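import Pool.Agent.Lib_helper19.PolyPre.Conv

/-!
# MP_b57e2f_an: polyhedral spaces are the subspaces of isometric preduals of `ℓ₁`

`PolyPre.IsPolyhedral`, `PolyPre.IsIsometricPredual` and `PolyPre.IsomorphicToSubspace` are defined
in `Pool.Agent.Lib_helper19.PolyPre.Defs`.
-/

set_option autoImplicit false

universe u

namespace Pool.Agent.Results.MP_b57e2f_an.PolyhedralPredual

open PolyPre

/-- A separable real Banach space `X` is isomorphic to a polyhedral normed space `Z` (for instance
`Z = X`, if `X` itself is polyhedral) if and only if it is isomorphic to a subspace of a Banach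
space `Y` whose dual is isometrically isomorphic to `ℓ₁`. -/
theorem result (X : Type u) [NormedAddCommGroup X] [NormedSpace ℝ X] [CompleteSpace X]
    [TopologicalSpace.SeparableSpace X] :
    (∃ (Z : Type u) (_ : NormedAddCommGroup Z) (_ : NormedSpace ℝ Z),
      IsPolyhedral Z ∧ Nonempty (X ≃L[ℝ] Z)) ↔
    ∃ (Y : Type) (_ : NormedAddCommGroup Y) (_ : NormedSpace ℝ Y) (_ : CompleteSpace Y),
      IsIsometricPredual Y ∧ IsomorphicToSubspace X Y := by
  constructor
  · rintro ⟨Z, _, _, hZ, ⟨e⟩⟩
    exact embeds_of_iso X Z hZ e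
  · rintro ⟨Y, _, _, _, hY, hX⟩
    exact exists_polyhedral_of_embeds X Y hY hX

end Pool.Agent.Results.MP_b57e2f_an.PolyhedralPredual
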